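import Pool.Agent.Lib.MP_4953ed_an.Restr

/-! The small dimension, the global dimension and the bidimension of `C(βℕ)` are all infinite. -/

namespace Pool.Agent.Results.MP_4953ed_an.AllInfinite

open Pool.Agent.Lib.MP_4953ed_an

/-- A complex Banach space. -/
structure Ban where
  X : Type
  [ng : NormedAddCommGroup X]
  [ns : NormedSpace ℂ X]
  [cs : CompleteSpace X]

attribute [instance] Ban.ng Ban.ns Ban.cs

/-- bounded linear operator -/
def Ban.Lin (E F : Ban) (f : E.X → F.X) : Prop := IsBoundedLinearMap ℂ f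

/-- `0 ← E ← P 0 ← P 1 ← ⋯` is a complex that splits as a complex of Banach spaces: it has a
contracting homotopy of bounded linear operators. -/
def Admissible (E : Ban) (P : ℕ → Ban) (ε : (P 0).X → E.X)
    (d : ∀ k, (P (k + 1)).X → (P k).X) : Prop :=
  (∀ u, ε (d 0 u) = 0) ∧ (∀ k u, d k (d (k + 1) u) = 0) ∧
    ∃ (t : E.X → (P 0).X) (s : ∀ k, (P k).X → (P (k + 1)).X),
      E.Lin (P 0) t ∧ (∀ k, (P k).Lin (P (k + 1)) (s k)) ∧ (∀ x, ε (t x) = x) ∧
      (∀ u, d 0 (s 0 u) + t (ε u) = u) ∧ ∀ k u, d (k + 1) (s (k + 1) u) + s k (d k u) = u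

/-- A Banach left `A`-module (bounded bilinear associative action `l a x = a · x`); the unit acts
as the identity if `unital` holds. -/
structure BanMod (A : Type) [NormedRing A] [NormedAlgebra ℂ A] (unital : Prop) extends Ban where
  l : A → X → X
  l_bil : IsBoundedBilinearMap ℂ fun z : A × X => l z.1 z.2
  l_mul : ∀ a b x, l (a * b) x = l a (l b x)
  l_one : unital → ∀ x, l 1 x = x

/-- A Banach `A`-bimodule; `r a x` is `x · a`. -/
structure BanBimod (A : Type) [NormedRing A] [NormedAlgebra ℂ A] (unital : Prop)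
    extends BanMod A unital where
  r : A → X → X
  r_bil : IsBoundedBilinearMap ℂ fun z : A × X => r z.1 z.2
  r_mul : ∀ a b x, r (a * b) x = r b (r a x)
  l_r : ∀ a b x, l a (r b x) = r b (l a x)
  r_one : unital → ∀ x, r 1 x = x

variable {A : Type} [NormedRing A] [NormedAlgebra ℂ A] {unital : Prop}

/-- morphism of left modules -/
def BanMod.IsHom (M N : BanMod A unital) (φ : M.X → N.X) : Prop :=
  M.toBan.Lin N.toBan φ ∧ ∀ a x, φ (M.l a x) = N.l a (φ x)

/-- every morphism onto `M` with a bounded linear right inverse has a right inverse morphism -/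
def BanMod.Projective (M : BanMod A unital) : Prop :=
  ∀ (Y : BanMod A unital) (φ : Y.X → M.X), Y.IsHom M φ →
    (∃ σ : M.X → Y.X, M.toBan.Lin Y.toBan σ ∧ ∀ x, φ (σ x) = x) →
    ∃ σ : M.X → Y.X, M.IsHom Y σ ∧ ∀ x, φ (σ x) = x

/-- `M` has a projective resolution with `P k = 0` for all `k > n` -/
def BanMod.HasRes (M : BanMod A unital) (n : ℕ) : Prop :=
  ∃ (P : ℕ → BanMod A unital) (ε : (P 0).X → M.X) (d : ∀ k, (P (k + 1)).X → (P k).X),
    (∀ k, (P k).Projective) ∧ (P 0).IsHom M ε ∧ (∀ k, (P (k + 1)).IsHom (P k) (d k)) ∧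
      Admissible M.toBan (fun k => (P k).toBan) ε d ∧ ∀ k, n < k → Subsingleton (P k).X

/-- homological dimension of a left module: the least such `n`, or `∞` -/
noncomputable def BanMod.dh (M : BanMod A unital) : ℕ∞ := ⨅ (n : ℕ) (_ : M.HasRes n), (n : ℕ∞)

/-- nonzero action and no submodule other than `0` and the whole module -/
def BanMod.Irreducible (M : BanMod A unital) : Prop :=
  (∃ a x, M.l a x ≠ 0) ∧
    ∀ N : Submodule ℂ M.X, (∀ a, ∀ x ∈ N, M.l a x ∈ N) → N = ⊥ ∨ N = ⊤

/-- morphism of bimodules -/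
def BanBimod.IsHom (M N : BanBimod A unital) (φ : M.X → N.X) : Prop :=
  M.toBanMod.IsHom N.toBanMod φ ∧ ∀ a x, φ (M.r a x) = N.r a (φ x)

/-- projective bimodule -/
def BanBimod.Projective (M : BanBimod A unital) : Prop :=
  ∀ (Y : BanBimod A unital) (φ : Y.X → M.X), Y.IsHom M φ →
    (∃ σ : M.X → Y.X, M.toBan.Lin Y.toBan σ ∧ ∀ x, φ (σ x) = x) →
    ∃ σ : M.X → Y.X, M.IsHom Y σ ∧ ∀ x, φ (σ x) = x

/-- `M` has a projective bimodule resolution with `P k = 0` for all `k > n` -/
def BanBimod.HasRes (M : BanBimod A unital) (n : ℕ) : Prop :=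
  ∃ (P : ℕ → BanBimod A unital) (ε : (P 0).X → M.X) (d : ∀ k, (P (k + 1)).X → (P k).X),
    (∀ k, (P k).Projective) ∧ (P 0).IsHom M ε ∧ (∀ k, (P (k + 1)).IsHom (P k) (d k)) ∧
      Admissible M.toBan (fun k => (P k).toBan) ε d ∧ ∀ k, n < k → Subsingleton (P k).X

/-- homological dimension of a bimodule -/
noncomputable def BanBimod.dh (M : BanBimod A unital) : ℕ∞ :=
  ⨅ (n : ℕ) (_ : M.HasRes n), (n : ℕ∞)

/-- `A` as a bimodule over itself -/
noncomputable def regular (A : Type) [NormedRing A] [NormedAlgebra ℂ A] [CompleteSpace A]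
    (unital : Prop) : BanBimod A unital where
  X := A
  l a x := a * x
  l_bil := isBoundedBilinearMap_mul
  l_mul a b x := mul_assoc a b x
  l_one _ x := one_mul x
  r a x := x * a
  r_bil := isBoundedBilinearMap_mul.symm
  r_mul a b x := (mul_assoc x a b).symm
  l_r a b x := (mul_assoc a x b).symm
  r_one _ x := mul_one x

/-- small dimension -/
noncomputable def ds (A : Type) [NormedRing A] [NormedAlgebra ℂ A] (unital : Prop) : ℕ∞ :=
  ⨆ (M : BanMod A unital) (_ : M.Irreducible), M.dh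

/-- global dimension -/
noncomputable def dg (A : Type) [NormedRing A] [NormedAlgebra ℂ A] (unital : Prop) : ℕ∞ :=
  ⨆ M : BanMod A unital, M.dh

/-- bidimension -/
noncomputable def db (A : Type) [NormedRing A] [NormedAlgebra ℂ A] [CompleteSpace A]
    (unital : Prop) : ℕ∞ :=
  (regular A unital).dh

/-- the left action as a continuous bilinear map -/
noncomputable def BanMod.lc (M : BanMod A unital) : A →L[ℂ] M.X →L[ℂ] M.X :=
  M.l_bil.toContinuousLinearMap

/-- the right action as a continuous bilinear map -/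
noncomputable def BanBimod.rc (M : BanBimod A unital) : A →L[ℂ] M.X →L[ℂ] M.X :=
  M.r_bil.toContinuousLinearMap

/-- a bounded operator as a continuous linear map -/
noncomputable def Ban.Lin.clm {E F : Ban} {f : E.X → F.X} (h : E.Lin F f) : E.X →L[ℂ] F.X :=
  IsBoundedLinearMap.toContinuousLinearMap f h

/-- sanity check: the regular left module is projective -/
theorem regular_projective [CompleteSpace A] : (regular A unital).toBanMod.Projective := by
  intro Y φ hφ ⟨σ, _, hσ⟩
  refine ⟨fun x => Y.l x (σ (1 : A)), ⟨(Y.lc.flip (σ (1 : A))).isBoundedLinearMap,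
    fun a x => Y.l_mul a x _⟩, fun x => ?_⟩
  exact (hφ.2 x _).trans
    ((congrArg ((regular A unital).l x) (hσ (1 : A))).trans (mul_one (M := A) x))

section proof

variable {K : Type} [TopologicalSpace K] [CompactSpace K]

/-- the one-dimensional module of a point -/
noncomputable def pointMod (p : K) (unital : Prop) : BanMod C(K, ℂ) unital where
  X := ℂ
  l a x := a p * x
  l_bil := ((ContinuousLinearMap.mul ℂ ℂ).comp (ContinuousMap.evalCLM ℂ p)).isBoundedBilinearMap
  l_mul a b x := mul_assoc (a p) (b p) x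
  l_one _ x := one_mul x

theorem pointMod_irreducible (p : K) : (pointMod p unital).Irreducible := by
  refine ⟨⟨1, (1 : ℂ), ?_⟩, fun N _ => eq_bot_or_eq_top (α := Submodule ℂ ℂ) N⟩
  change (1 : ℂ) * 1 ≠ 0
  simp

theorem lE_mul (a b : C(K, ℂ)) (G : EE K) : lE (a * b) G = lE a (lE b G) := by
  ext z
  simp [mul_assoc]

theorem lE_one (G : EE K) : lE 1 G = G := by
  ext z
  simp

theorem lift_left (M : BanMod C(K, ℂ) unital) (hM : M.Projective) :
    LiftE (fun _ => 0) M.lc 0 := by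
  intro W hW hl _ σ hσ
  have : CompleteSpace W := hW.completeSpace_coe
  let Y : BanMod C(K, ℂ) unital :=
    { X := W
      l := fun a w => restrAct M.lc lE W hl a w
      l_bil := (restrAct M.lc lE W hl).isBoundedBilinearMap
      l_mul := fun a b w => Subtype.ext (Prod.ext (M.l_mul a b _) (lE_mul a b _))
      l_one := fun h w => Subtype.ext (Prod.ext (M.l_one h _) (lE_one _)) }
  obtain ⟨τ₀, ⟨hτ₀, hτ⟩, hτ'⟩ := hM Y (fun w : W => w.1.1)
    ⟨((ContinuousLinearMap.fst ℂ _ _).comp W.subtypeL).isBoundedLinearMap, fun _ _ => rfl⟩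
    ⟨fun u => (⟨(u, σ u), hσ u⟩ : W),
      (((ContinuousLinearMap.id ℂ M.X).prod σ).codRestrict W hσ).isBoundedLinearMap, fun _ => rfl⟩
  let τ : M.X →L[ℂ] W := hτ₀.clm
  refine ⟨(ContinuousLinearMap.snd ℂ _ _).comp (W.subtypeL.comp τ), fun u => ?_,
    fun a u => congrArg (fun w : W => w.1.2) (hτ a u), fun a u => by simp⟩
  have h1 : (τ u).1.1 = u := hτ' u
  have h2 := (τ u).2
  change (u, (τ u).1.2) ∈ W
  conv => enter [2, 1]; rw [← h1]
  exact h2

theorem lift_bi (p : K) (M : BanBimod C(K, ℂ) unital) (hM : M.Projective) :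
    LiftE (fun a => a p) M.lc M.rc := by
  intro W hW hl hr σ hσ
  have : CompleteSpace W := hW.completeSpace_coe
  let m : C(K, ℂ) →L[ℂ] EE K →L[ℂ] EE K :=
    (ContinuousLinearMap.lsmul ℂ ℂ).comp (ContinuousMap.evalCLM ℂ p)
  let Y : BanBimod C(K, ℂ) unital :=
    { X := W
      l := fun a w => restrAct M.lc lE W hl a w
      l_bil := (restrAct M.lc lE W hl).isBoundedBilinearMap
      l_mul := fun a b w => Subtype.ext (Prod.ext (M.l_mul a b _) (lE_mul a b _))
      l_one := fun h w => Subtype.ext (Prod.ext (M.l_one h _) (lE_one _))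
      r := fun a w => restrAct M.rc m W hr a w
      r_bil := (restrAct M.rc m W hr).isBoundedBilinearMap
      r_mul := fun a b w => Subtype.ext (Prod.ext (M.r_mul a b _) (by
        change (a p * b p) • w.1.2 = b p • a p • w.1.2
        rw [smul_smul, mul_comm]))
      l_r := fun a b w => Subtype.ext (Prod.ext (M.l_r a b _) (by
        change lE a (b p • w.1.2) = b p • lE a w.1.2
        rw [map_smul]))
      r_one := fun h w => Subtype.ext (Prod.ext (M.r_one h _) (by
        change (1 : ℂ) • w.1.2 = w.1.2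
        rw [one_smul])) }
  obtain ⟨τ₀, ⟨⟨hτ₀, hτ⟩, hτr⟩, hτ'⟩ := hM Y (fun w : W => w.1.1)
    ⟨⟨((ContinuousLinearMap.fst ℂ _ _).comp W.subtypeL).isBoundedLinearMap, fun _ _ => rfl⟩,
      fun _ _ => rfl⟩
    ⟨fun u => (⟨(u, σ u), hσ u⟩ : W),
      (((ContinuousLinearMap.id ℂ M.X).prod σ).codRestrict W hσ).isBoundedLinearMap, fun _ => rfl⟩
  let τ : M.X →L[ℂ] W := hτ₀.clm
  refine ⟨(ContinuousLinearMap.snd ℂ _ _).comp (W.subtypeL.comp τ), fun u => ?_,
    fun a u => congrArg (fun w : W => w.1.2) (hτ a u),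
    fun a u => congrArg (fun w : W => w.1.2) (hτr a u)⟩
  have h1 : (τ u).1.1 = u := hτ' u
  have h2 := (τ u).2
  change (u, (τ u).1.2) ∈ W
  conv => enter [2, 1]; rw [← h1]
  exact h2

theorem not_hasRes_left (p : K) (h : ∀ (D : ResData K p) (N : ℕ), ¬ Subsingleton (D.P (N + 1)))
    (n : ℕ) : ¬ (pointMod p unital).HasRes n := by
  rintro ⟨P, ε, d, hP, hε, hd, ⟨h1, h2, t, s, ht, hs, h3, h4, h5⟩, hsub⟩
  let ε' : (P 0).X →L[ℂ] ℂ := hε.1.clm
  let t' : ℂ →L[ℂ] (P 0).X := ht.clm
  let d' : ∀ k, (P (k + 1)).X →L[ℂ] (P k).X := fun k => (hd k).1.clm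
  let s' : ∀ k, (P k).X →L[ℂ] (P (k + 1)).X := fun k => (hs k).clm
  have e0 : ∀ k a b u, (P k).lc (a * b) u = (P k).lc a ((P k).lc b u) := fun k => (P k).l_mul
  have e1 : ∀ a u, ε' ((P 0).lc a u) = a p * ε' u := hε.2
  have e4 : ∀ u, d' 0 (s' 0 u) + t' (ε' u) = u := h4
  have e6 : ∀ k u, d' (k + 1) (s' (k + 1) u) + s' k (d' k u) = u := h5
  refine h
    { P := fun k => (P k).X
      L := fun k => (P k).lc
      R := fun _ => 0
      ρ := fun _ => 0
      d := d'
      s := s'
      η := ε'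
      x0 := t' 1
      hρ := fun _ _ => rfl
      LL := fun k a b u hab => by rw [← e0, mul_comm, hab]; simp
      RR := fun _ _ _ _ _ => rfl
      LR := fun _ _ _ _ => by simp
      dL := fun k => (hd k).2
      dR := fun _ _ _ => by simp
      dd := h2
      ηL := e1
      ηR := fun _ u => by simp
      ηd := h1
      ηx := h3 _
      hs0 := fun a ha => ?_
      hs := fun k u hu => by simpa [hu] using e6 k u
      lift := fun k => lift_left _ (hP k) } n (hsub (n + 1) (Nat.lt_succ_self n))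
  have h6 := e4 ((P 0).lc a (t' 1))
  rw [e1, ha, zero_mul, map_zero, add_zero] at h6
  simpa using h6

theorem not_hasRes_bi (p : K) (h : ∀ (D : ResData K p) (N : ℕ), ¬ Subsingleton (D.P (N + 1)))
    (n : ℕ) : ¬ (regular C(K, ℂ) unital).HasRes n := by
  rintro ⟨P, ε, d, hP, hε, hd, ⟨h1, h2, t, s, ht, hs, h3, h4, h5⟩, hsub⟩
  let ε' : (P 0).X →L[ℂ] C(K, ℂ) := hε.1.1.clm
  let t' : C(K, ℂ) →L[ℂ] (P 0).X := ht.clm
  let d' : ∀ k, (P (k + 1)).X →L[ℂ] (P k).X := fun k => (hd k).1.1.clm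
  let s' : ∀ k, (P k).X →L[ℂ] (P (k + 1)).X := fun k => (hs k).clm
  have e0 : ∀ k a b u, (P k).lc (a * b) u = (P k).lc a ((P k).lc b u) := fun k => (P k).l_mul
  have e0' : ∀ k a b u, (P k).rc (a * b) u = (P k).rc b ((P k).rc a u) := fun k => (P k).r_mul
  have e1 : ∀ a u, ε' ((P 0).lc a u) = a * ε' u := hε.1.2
  have e2 : ∀ a u, ε' ((P 0).rc a u) = ε' u * a := hε.2
  have e3 : ∀ x, ε' (t' x) = x := h3
  have e4 : ∀ u, d' 0 (s' 0 u) + t' (ε' u) = u := h4
  have e5 : ∀ u, ε' (d' 0 u) = 0 := h1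
  have e6 : ∀ k u, d' (k + 1) (s' (k + 1) u) + s' k (d' k u) = u := h5
  refine h
    { P := fun k => (P k).X
      L := fun k => (P k).lc
      R := fun k => (P k).rc
      ρ := fun a => a p
      d := d'
      s := s'
      η := (ContinuousMap.evalCLM ℂ p).comp ε'
      x0 := t' 1
      hρ := fun _ h => h
      LL := fun k a b u hab => by rw [← e0, mul_comm, hab]; simp
      RR := fun k a b u hab => by rw [← e0', mul_comm, hab]; simp
      LR := fun k => (P k).l_r
      dL := fun k => (hd k).1.2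
      dR := fun k => (hd k).2
      dd := h2
      ηL := fun a u => by simp [e1]
      ηR := fun a u => by simp [e2, mul_comm]
      ηd := fun u => by simp [e5]
      ηx := by simp [e3]
      hs0 := fun a _ => ?_
      hs := fun k u hu => by simpa [hu] using e6 k u
      lift := fun k => lift_bi p _ (hP k) } n (hsub (n + 1) (Nat.lt_succ_self n))
  have h6 := e4 ((P 0).lc a (t' 1) - (P 0).rc a (t' 1))
  have h7 : ε' ((P 0).lc a (t' 1) - (P 0).rc a (t' 1)) = 0 := by
    simp [e1, e2, e3]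
  rwa [h7, map_zero, add_zero] at h6

end proof

theorem result (unital : Prop) :
    ds C(StoneCech ℕ, ℂ) unital = ⊤ ∧ dg C(StoneCech ℕ, ℂ) unital = ⊤ ∧
      db C(StoneCech ℕ, ℂ) unital = ⊤ := by
  obtain ⟨p, hp⟩ := ResData.not_subsingleton_stoneCech
  have h1 : (pointMod p unital).dh = ⊤ := by
    simp [BanMod.dh, not_hasRes_left p hp]
  refine ⟨top_unique ?_, top_unique ?_, ?_⟩
  · exact h1 ▸ le_iSup₂ (f := fun (M : BanMod C(StoneCech ℕ, ℂ) unital) (_ : M.Irreducible) => M.dh)
      (pointMod p unital) (pointMod_irreducible p)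
  · exact h1 ▸ le_iSup (fun M : BanMod C(StoneCech ℕ, ℂ) unital => M.dh) (pointMod p unital)
  · simp [db, BanBimod.dh, not_hasRes_bi p hp]

end Pool.Agent.Results.MP_4953ed_an.AllInfinite
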