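import Pool.Agent.Results.MP_4953ed_an.AllInfinite
import Pool.Agent.Lib.MP_4953ed_an.Corona

/-! The three homological dimensions of the corona algebra `C(βX \ X)` are infinite for every
locally compact Hausdorff space `X` that is not pseudocompact. -/

namespace Pool.Agent.Results.MP_4953ed_an.Corona

open Pool.Agent.Lib.MP_4953ed_an Pool.Agent.Results.MP_4953ed_an.AllInfinite

theorem result (X : Type) [TopologicalSpace X] [LocallyCompactSpace X] [T2Space X]
    (hX : ∃ h : X → ℝ, Continuous h ∧ ∀ M : ℝ, ∃ x, M < |h x|) (unital : Prop) :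
    ds C(Corona X, ℂ) unital = ⊤ ∧ dg C(Corona X, ℂ) unital = ⊤ ∧
      db C(Corona X, ℂ) unital = ⊤ := by
  obtain ⟨h, hh, hu⟩ := hX
  obtain ⟨p, hp⟩ := ResData.not_subsingleton_corona hh hu
  have h1 : (pointMod p unital).dh = ⊤ := by
    simp [BanMod.dh, not_hasRes_left p hp]
  refine ⟨top_unique ?_, top_unique ?_, ?_⟩
  · exact h1 ▸ le_iSup₂ (f := fun (M : BanMod C(Corona X, ℂ) unital) (_ : M.Irreducible) => M.dh)
      (pointMod p unital) (pointMod_irreducible p)
  · exact h1 ▸ le_iSup (fun M : BanMod C(Corona X, ℂ) unital => M.dh) (pointMod p unital)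
  · simp [db, BanBimod.dh, not_hasRes_bi p hp]

end Pool.Agent.Results.MP_4953ed_an.Corona
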